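import Pool.Agent.Y980.DV.Mis

set_option autoImplicit false

/-!
# The upper bound `4663/6480`
-/

namespace Pool.Agent.Y980.DV

open Finset
open Pool.Agent.Results.MP_773b84_nt.BeyondTwoThirds (Admissible g g_le C card_C_le)

variable {n : ℕ} {A : Finset ℕ}

/-- the integers `j` prime to `6` with `15 j ≤ n < 16 j` -/
def D (n : ℕ) : Finset ℕ := (Ioc (n / 16) (n / 15)).filter (fun j => j % 2 = 1 ∧ j % 3 ≠ 0)

/-- the integers `i` prime to `6` with `45 i ≤ n < 54 i` -/
def E (n : ℕ) : Finset ℕ := (Ioc (n / 54) (n / 45)).filter (fun j => j % 2 = 1 ∧ j % 3 ≠ 0)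

lemma card_D (n : ℕ) : n ≤ 720 * (D n).card + 1920 := by
  obtain ⟨q, hq⟩ : ∃ q, q = (n / 15 - n / 16) / 6 := ⟨_, rfl⟩
  have h1 : (Ioc (n / 16) (n / 16 + 6 * q)).filter (fun j => j % 2 = 1 ∧ j % 3 ≠ 0) ⊆ D n := by
    apply filter_subset_filter
    apply Ioc_subset_Ioc_right
    omega
  have h2 := card_le_card h1
  rw [cntP _ 6 (fun x => by simp only [eq_iff_iff]; omega)] at h2
  have h3 : Nat.count (fun j => j % 2 = 1 ∧ j % 3 ≠ 0) 6 = 2 := by decide +kernel
  rw [h3] at h2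
  omega

lemma card_E (n : ℕ) : n ≤ 810 * (E n).card + 1920 := by
  obtain ⟨q, hq⟩ : ∃ q, q = (n / 45 - n / 54) / 6 := ⟨_, rfl⟩
  have h1 : (Ioc (n / 54) (n / 54 + 6 * q)).filter (fun j => j % 2 = 1 ∧ j % 3 ≠ 0) ⊆ E n := by
    apply filter_subset_filter
    apply Ioc_subset_Ioc_right
    omega
  have h2 := card_le_card h1
  rw [cntP _ 6 (fun x => by simp only [eq_iff_iff]; omega)] at h2
  have h3 : Nat.count (fun j => j % 2 = 1 ∧ j % 3 ≠ 0) 6 = 2 := by decide +kernel
  rw [h3] at h2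
  omega

lemma room {X Y Z : Finset ℕ} (h : X ⊆ Y) (hZ : ∀ z ∈ Z, z ∈ Y ∧ z ∉ X) :
    X.card + Z.card ≤ Y.card := by
  rw [← card_union_of_disjoint]
  · apply card_le_card
    intro k hk
    rcases mem_union.1 hk with hk | hk
    · exact h hk
    · exact (hZ k hk).1
  · rw [Finset.disjoint_left]
    intro k hk hk'
    exact (hZ k hk').2 hk

lemma card_mul_image (c : ℕ) (hc : 0 < c) (Z : Finset ℕ) : (Z.image (fun j => c * j)).card = Z.card :=
  card_image_of_injective _ (fun _ _ h => Nat.eq_of_mul_eq_mul_left hc h)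

theorem card_bound3 (hA : A ⊆ Icc 1 n) (hadm : Admissible A) :
    18 * (A.card + (D n).card + (E n).card) ≤ 13 * n + 12 * Nat.log 2 n + 75 := by
  classical
  rcases Nat.lt_or_ge n 45 with hn | hn
  · have h1 := card_bound hA hadm
    have h2 : (E n).card = 0 := by
      rw [card_eq_zero, E, Ioc_eq_empty (by omega), filter_empty]
    have h3 : (D n).card ≤ 3 := by
      refine (card_filter_le _ _).trans ?_
      rw [Nat.card_Ioc]
      omega
    omega
  have hpos : ∀ a ∈ A, 1 ≤ a ∧ a ≤ n := fun a ha => mem_Icc.mp (hA ha)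
  have hsplit := card_filter_add_card_filter_not (s := A) (fun x => Big A x)
  obtain ⟨I0, hI0⟩ : ∃ I0, I0 = (A.filter (fun x => ¬ Big A x)).image w := ⟨_, rfl⟩
  have cI0 : I0.card = (A.filter (fun x => ¬ Big A x)).card := by
    rw [hI0]
    refine card_image_of_injOn ?_
    intro x hx x' hx' h
    rw [mem_coe, mem_filter] at hx hx'
    exact small_unique hx.1 hx'.1 hx.2 hx'.2 h
  have sI0 : I0 ⊆ (Icc 1 n).filter (fun k => k % 2 = 1) := by
    intro k hk
    rw [hI0, mem_image] at hk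
    obtain ⟨x, hx, rfl⟩ := hk
    rw [mem_filter] at hx
    have hx0 := hpos x hx.1
    have := w_le x
    have h3 := w_pos (x := x) (by omega)
    rw [mem_filter, mem_Icc]
    exact ⟨⟨h3, by omega⟩, w_odd (by omega)⟩
  have mI0 : ∀ k, k ∈ I0 → ∃ x ∈ A, w x = k := by
    intro k hk
    rw [hI0, mem_image] at hk
    obtain ⟨x, hx, h⟩ := hk
    exact ⟨x, (mem_filter.1 hx).1, h⟩
  have hlow : ∀ x ∈ A, Big A x → 2 ^ (lo A x + 1) * w x ≤ x := by
    intro x _ hb
    obtain ⟨y, hy, hyx, hwy, hly⟩ := lo_spec hb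
    have h1 := v_lt hwy hyx
    calc 2 ^ (lo A x + 1) * w x ≤ 2 ^ padicValNat 2 x * w x :=
          Nat.mul_le_mul_right _ (Nat.pow_le_pow_right (by norm_num) (by omega))
      _ = x := w_mul x
  have hmap : ∀ x ∈ A.filter (fun x => Big A x), lo A x / 2 ∈ range (Nat.log 2 n + 1) := by
    intro x hx
    rw [mem_filter] at hx
    rw [mem_range]
    have h1 := hlow x hx.1 hx.2
    have h2 := hpos x hx.1
    have h3 := w_pos (x := x) (by omega)
    have h4 : 2 ^ (lo A x + 1) ≤ n := by nlinarith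
    have h5 := Nat.le_log_of_pow_le (by norm_num) h4
    omega
  obtain ⟨J, hJ⟩ : ∃ J : ℕ → Finset ℕ, J = fun i =>
    ((A.filter (fun x => Big A x)).filter (fun x => lo A x / 2 = i)).image (fun x => c3 (w x)) :=
    ⟨_, rfl⟩
  have cJ : ∀ i, (J i).card =
      ((A.filter (fun x => Big A x)).filter (fun x => lo A x / 2 = i)).card := by
    intro i
    rw [hJ]
    refine card_image_of_injOn ?_
    intro x hx x' hx' h
    rw [mem_coe, mem_filter, mem_filter] at hx hx'
    obtain ⟨⟨hx, hbx⟩, hi⟩ := hx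
    obtain ⟨⟨hx', hbx'⟩, hi'⟩ := hx'
    by_cases hw : w x = w x'
    · exact big_unique hadm hx hx' hbx hbx' hw
    · rcases c3_comp h with hd | hd
      · have := lo_gap hadm hx hx' hbx hbx' hd hw
        omega
      · have := lo_gap hadm hx' hx hbx' hbx hd (Ne.symm hw)
        omega
  have mJ : ∀ i k, k ∈ J i ↔ ∃ x ∈ A, Big A x ∧ lo A x / 2 = i ∧ c3 (w x) = k := by
    intro i k
    rw [hJ]
    simp only [mem_image, mem_filter]
    constructor
    · rintro ⟨x, ⟨⟨h1, h2⟩, h3⟩, h4⟩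
      exact ⟨x, h1, h2, h3, h4⟩
    · rintro ⟨x, h1, h2, h3, h4⟩
      exact ⟨x, ⟨⟨h1, h2⟩, h3⟩, h4⟩
  have sJ : ∀ i, J i ⊆ C (n / 2 ^ (2 * i + 1)) := by
    intro i k hk
    rw [mJ] at hk
    obtain ⟨x, hx, hbx, hi, rfl⟩ := hk
    have h1 := hlow x hx hbx
    have h2 := hpos x hx
    have h3 := w_odd (x := x) (by omega)
    have h4 := c3_odd h3
    have h5 := c3_ne (x := w x) (by omega)
    have h6 := Nat.le_of_dvd (by omega) (c3_dvd (w x))
    have h7 : 1 ≤ c3 (w x) := by omega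
    rw [C, mem_filter, mem_Icc]
    refine ⟨⟨h7, ?_⟩, h4, h5⟩
    rw [Nat.le_div_iff_mul_le (by positivity)]
    calc c3 (w x) * 2 ^ (2 * i + 1) ≤ w x * 2 ^ (lo A x + 1) :=
          Nat.mul_le_mul h6 (Nat.pow_le_pow_right (by norm_num) (by omega))
      _ = 2 ^ (lo A x + 1) * w x := mul_comm _ _
      _ ≤ n := by omega
  -- the missing slots
  have hD : ∀ j ∈ D n, (j % 2 = 1 ∧ j % 3 ≠ 0) ∧ 15 * j ≤ n ∧ n < 16 * j := by
    intro j hj
    rw [D, mem_filter, mem_Ioc] at hj
    exact ⟨hj.2, by omega, by omega⟩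
  have hE : ∀ j ∈ E n, (j % 2 = 1 ∧ j % 3 ≠ 0) ∧ 45 * j ≤ n ∧ n < 54 * j := by
    intro j hj
    rw [E, mem_filter, mem_Ioc] at hj
    exact ⟨hj.2, by omega, by omega⟩
  obtain ⟨Da, hDa⟩ : ∃ X, X = (D n).filter (fun j => 15 * j ∉ I0) := ⟨_, rfl⟩
  obtain ⟨Db, hDb⟩ : ∃ X, X = (D n).filter (fun j => 5 * j ∉ J 0) := ⟨_, rfl⟩
  obtain ⟨Dc, hDc⟩ : ∃ X, X = (D n).filter (fun j => j ∉ J 0) := ⟨_, rfl⟩
  obtain ⟨Dd, hDd⟩ : ∃ X, X = (D n).filter (fun j => j ∉ J 1) := ⟨_, rfl⟩
  obtain ⟨E0, hE0⟩ : ∃ X, X = (E n).filter (fun j => 45 * j ∉ I0) := ⟨_, rfl⟩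
  obtain ⟨E1, hE1⟩ : ∃ X, X = (E n).filter (fun j => j ∉ J 2) := ⟨_, rfl⟩
  obtain ⟨E2, hE2⟩ : ∃ X, X = (E n).filter (fun j => j ∉ J 1) := ⟨_, rfl⟩
  obtain ⟨E3, hE3⟩ : ∃ X, X = (E n).filter (fun j => j ∉ J 0) := ⟨_, rfl⟩
  obtain ⟨E4, hE4⟩ : ∃ X, X = (E n).filter (fun j => 5 * j ∉ J 1) := ⟨_, rfl⟩
  obtain ⟨E5, hE5⟩ : ∃ X, X = (E n).filter (fun j => 5 * j ∉ J 0) := ⟨_, rfl⟩
  have hcovD : (D n).card ≤ Da.card + (Db.card + (Dc.card + Dd.card)) := by
    have h1 : D n ⊆ Da ∪ (Db ∪ (Dc ∪ Dd)) := by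
      intro j hj
      have hj' := hD j hj
      simp only [hDa, hDb, hDc, hDd, mem_union, mem_filter, hj, true_and]
      by_contra hcon
      push Not at hcon
      obtain ⟨n1, n2, n3, n4⟩ := hcon
      exact missing hA hadm hj'.2.1 hj'.2.2 (mI0 _ n1) ((mJ _ _).1 n4) ((mJ _ _).1 n2)
        ((mJ _ _).1 n3)
    refine (card_le_card h1).trans ((card_union_le _ _).trans (Nat.add_le_add_left ?_ _))
    exact (card_union_le _ _).trans (Nat.add_le_add_left (card_union_le _ _) _)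
  have hcovE : (E n).card ≤ E0.card + (E1.card + (E2.card + (E3.card + (E4.card + E5.card)))) := by
    have h1 : E n ⊆ E0 ∪ (E1 ∪ (E2 ∪ (E3 ∪ (E4 ∪ E5)))) := by
      intro j hj
      have hj' := hE j hj
      simp only [hE0, hE1, hE2, hE3, hE4, hE5, mem_union, mem_filter, hj, true_and]
      by_contra hcon
      push Not at hcon
      obtain ⟨n0, n1, n2, n3, n4, n5⟩ := hcon
      exact missing2 hA hadm hj'.2.1 hj'.2.2 (mI0 _ n0) ((mJ _ _).1 n1) ((mJ _ _).1 n2)
        ((mJ _ _).1 n3) ((mJ _ _).1 n4) ((mJ _ _).1 n5)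
    refine (card_le_card h1).trans ((card_union_le _ _).trans (Nat.add_le_add_left ?_ _))
    refine (card_union_le _ _).trans (Nat.add_le_add_left ?_ _)
    refine (card_union_le _ _).trans (Nat.add_le_add_left ?_ _)
    refine (card_union_le _ _).trans (Nat.add_le_add_left ?_ _)
    exact card_union_le _ _
  have fDa : ∀ j ∈ Da, j ∈ D n ∧ 15 * j ∉ I0 := fun j hj => by rwa [hDa, mem_filter] at hj
  have fDb : ∀ j ∈ Db, j ∈ D n ∧ 5 * j ∉ J 0 := fun j hj => by rwa [hDb, mem_filter] at hj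
  have fDc : ∀ j ∈ Dc, j ∈ D n ∧ j ∉ J 0 := fun j hj => by rwa [hDc, mem_filter] at hj
  have fDd : ∀ j ∈ Dd, j ∈ D n ∧ j ∉ J 1 := fun j hj => by rwa [hDd, mem_filter] at hj
  have fE0 : ∀ j ∈ E0, j ∈ E n ∧ 45 * j ∉ I0 := fun j hj => by rwa [hE0, mem_filter] at hj
  have fE1 : ∀ j ∈ E1, j ∈ E n ∧ j ∉ J 2 := fun j hj => by rwa [hE1, mem_filter] at hj
  have fE2 : ∀ j ∈ E2, j ∈ E n ∧ j ∉ J 1 := fun j hj => by rwa [hE2, mem_filter] at hj
  have fE3 : ∀ j ∈ E3, j ∈ E n ∧ j ∉ J 0 := fun j hj => by rwa [hE3, mem_filter] at hj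
  have fE4 : ∀ j ∈ E4, j ∈ E n ∧ 5 * j ∉ J 1 := fun j hj => by rwa [hE4, mem_filter] at hj
  have fE5 : ∀ j ∈ E5, j ∈ E n ∧ 5 * j ∉ J 0 := fun j hj => by rwa [hE5, mem_filter] at hj
  have k0 : I0.card + (Da.card + E0.card) ≤ (n + 1) / 2 := by
    rw [← Pool.Agent.Results.MP_773b84_nt.BeyondTwoThirds.card_odd n,
      ← card_mul_image 15 (by norm_num) Da, ← card_mul_image 45 (by norm_num) E0,
      ← card_union_of_disjoint]
    · refine room sI0 fun k hk => ?_
      rw [mem_union, mem_image, mem_image] at hk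
      rcases hk with ⟨j, hj, rfl⟩ | ⟨j, hj, rfl⟩
      · have h1 := fDa j hj
        have h2 := hD j h1.1
        exact ⟨mem_filter.2 ⟨mem_Icc.2 ⟨by omega, by omega⟩, by omega⟩, h1.2⟩
      · have h1 := fE0 j hj
        have h2 := hE j h1.1
        exact ⟨mem_filter.2 ⟨mem_Icc.2 ⟨by omega, by omega⟩, by omega⟩, h1.2⟩
    · rw [Finset.disjoint_left]
      intro k hk hk'
      rw [mem_image] at hk hk'
      obtain ⟨j, hj, rfl⟩ := hk
      obtain ⟨i, hi, h⟩ := hk'
      have h2 := hD j (fDa j hj).1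
      omega
  have k1 : (J 0).card + ((Db.card + Dc.card) + (E3.card + E5.card)) ≤
      (C (n / 2 ^ (2 * 0 + 1))).card := by
    rw [← card_mul_image 5 (by norm_num) Db, ← card_mul_image 5 (by norm_num) E5,
      ← card_union_of_disjoint, ← card_union_of_disjoint, ← card_union_of_disjoint]
    · refine room (sJ 0) fun k hk => ?_
      rw [mem_union, mem_union, mem_union, mem_image, mem_image] at hk
      rcases hk with (⟨j, hj, rfl⟩ | hk) | (hk | ⟨j, hj, rfl⟩)
      · have h1 := fDb j hj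
        have h2 := hD j h1.1
        refine ⟨?_, h1.2⟩
        rw [C, mem_filter, mem_Icc]
        omega
      · have h1 := fDc k hk
        have h2 := hD k h1.1
        refine ⟨?_, h1.2⟩
        rw [C, mem_filter, mem_Icc]
        omega
      · have h1 := fE3 k hk
        have h2 := hE k h1.1
        refine ⟨?_, h1.2⟩
        rw [C, mem_filter, mem_Icc]
        omega
      · have h1 := fE5 j hj
        have h2 := hE j h1.1
        refine ⟨?_, h1.2⟩
        rw [C, mem_filter, mem_Icc]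
        omega
    · rw [Finset.disjoint_left]
      intro k hk hk'
      rw [mem_union, mem_image] at hk hk'
      rcases hk with ⟨j, hj, rfl⟩ | hk
      · have h1 := hD j (fDb j hj).1
        rcases hk' with hk' | ⟨i, hi, h⟩
        · have h2 := hE _ (fE3 _ hk').1
          omega
        · have h2 := hE i (fE5 i hi).1
          omega
      · have h1 := hD k (fDc k hk).1
        rcases hk' with hk' | ⟨i, hi, h⟩
        · have h2 := hE _ (fE3 _ hk').1
          omega
        · have h2 := hE i (fE5 i hi).1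
          omega
    · rw [Finset.disjoint_left]
      intro k hk hk'
      rw [mem_image] at hk'
      obtain ⟨i, hi, h⟩ := hk'
      have h1 := hE k (fE3 k hk).1
      have h2 := hE i (fE5 i hi).1
      omega
    · rw [Finset.disjoint_left]
      intro k hk hk'
      rw [mem_image] at hk
      obtain ⟨i, hi, h⟩ := hk
      have h1 := hD k (fDc k hk').1
      have h2 := hD i (fDb i hi).1
      omega
  have k2 : (J 1).card + (Dd.card + (E2.card + E4.card)) ≤ (C (n / 2 ^ (2 * 1 + 1))).card := by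
    rw [← card_mul_image 5 (by norm_num) E4, ← card_union_of_disjoint, ← card_union_of_disjoint]
    · refine room (sJ 1) fun k hk => ?_
      rw [mem_union, mem_union, mem_image] at hk
      rcases hk with hk | hk | ⟨j, hj, rfl⟩
      · have h1 := fDd k hk
        have h2 := hD k h1.1
        refine ⟨?_, h1.2⟩
        rw [C, mem_filter, mem_Icc]
        omega
      · have h1 := fE2 k hk
        have h2 := hE k h1.1
        refine ⟨?_, h1.2⟩
        rw [C, mem_filter, mem_Icc]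
        omega
      · have h1 := fE4 j hj
        have h2 := hE j h1.1
        refine ⟨?_, h1.2⟩
        rw [C, mem_filter, mem_Icc]
        omega
    · rw [Finset.disjoint_left]
      intro k hk hk'
      have h1 := hD k (fDd k hk).1
      rw [mem_union, mem_image] at hk'
      rcases hk' with hk' | ⟨i, hi, h⟩
      · have h2 := hE _ (fE2 _ hk').1
        omega
      · have h2 := hE i (fE4 i hi).1
        omega
    · rw [Finset.disjoint_left]
      intro k hk hk'
      rw [mem_image] at hk'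
      obtain ⟨i, hi, h⟩ := hk'
      have h1 := hE k (fE2 k hk).1
      have h2 := hE i (fE4 i hi).1
      omega
  have k3 : (J 2).card + E1.card ≤ (C (n / 2 ^ (2 * 2 + 1))).card := by
    refine room (sJ 2) fun k hk => ?_
    have h1 := fE1 k hk
    have h2 := hE k h1.1
    refine ⟨?_, h1.2⟩
    rw [C, mem_filter, mem_Icc]
    omega
  -- summation
  have hL : 3 ≤ Nat.log 2 n + 1 := by
    have : 2 ≤ Nat.log 2 n := Nat.le_log_of_pow_le (by norm_num) (by omega)
    omega
  obtain ⟨L, hL'⟩ : ∃ L, Nat.log 2 n + 1 = L + 3 := ⟨Nat.log 2 n + 1 - 3, by omega⟩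
  have hbig : (A.filter (fun x => Big A x)).card = ∑ i ∈ range (Nat.log 2 n + 1), (J i).card := by
    rw [Finset.card_eq_sum_card_fiberwise hmap]
    exact Finset.sum_congr rfl fun i _ => (cJ i).symm
  have hC : 3 * ∑ i ∈ range (Nat.log 2 n + 1), (C (n / 2 ^ (2 * i + 1))).card ≤
      ∑ i ∈ range (Nat.log 2 n + 1), n / 2 ^ (2 * i + 1) + 2 * (Nat.log 2 n + 1) := by
    rw [Finset.mul_sum]
    refine (Finset.sum_le_sum fun i _ => card_C_le (n / 2 ^ (2 * i + 1))).trans ?_
    rw [Finset.sum_add_distrib, Finset.sum_const, card_range]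
    simp only [smul_eq_mul]
    omega
  have hg := geo (Nat.log 2 n + 1) n
  have hsum : ∑ i ∈ range (Nat.log 2 n + 1), (J i).card +
      (((Db.card + Dc.card) + (E3.card + E5.card)) + (Dd.card + (E2.card + E4.card)) + E1.card) ≤
      ∑ i ∈ range (Nat.log 2 n + 1), (C (n / 2 ^ (2 * i + 1))).card := by
    rw [hL', Finset.sum_range_succ', Finset.sum_range_succ', Finset.sum_range_succ',
      Finset.sum_range_succ', Finset.sum_range_succ', Finset.sum_range_succ']
    have h5 : ∑ i ∈ range L, (J (i + 1 + 1 + 1)).card ≤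
        ∑ i ∈ range L, (C (n / 2 ^ (2 * (i + 1 + 1 + 1) + 1))).card :=
      Finset.sum_le_sum fun i _ => card_le_card (sJ _)
    have k2' : (J (0 + 1)).card + (Dd.card + (E2.card + E4.card)) ≤
      (C (n / 2 ^ (2 * (0 + 1) + 1))).card := k2
    have k3' : (J (0 + 1 + 1)).card + E1.card ≤
      (C (n / 2 ^ (2 * (0 + 1 + 1) + 1))).card := k3
    omega
  omega

end Pool.Agent.Y980.DV
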