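import Pool.Agent.Y980.DV.Low

set_option autoImplicit false

/-!
# The size of the set of density `97/135`
-/

namespace Pool.Agent.Y980.DV

open Finset

lemma cntP (p : ℕ → Prop) [DecidablePred p] (per : ℕ) (hp : Function.Periodic p per) (a b : ℕ) :
    ((Ioc a (a + per * b)).filter p).card = b * Nat.count p per := by
  induction b with
  | zero => simp
  | succ b ih =>
    have h1 : Ioc a (a + per * (b + 1)) =
        Ioc a (a + per * b) ∪ Ico (a + per * b + 1) (a + per * b + 1 + per) := by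
      ext x
      simp only [mem_union, mem_Ioc, mem_Ico, Nat.mul_succ]
      omega
    have h2 : Disjoint ((Ioc a (a + per * b)).filter p)
        ((Ico (a + per * b + 1) (a + per * b + 1 + per)).filter p) := by
      rw [Finset.disjoint_left]
      intro x hx hx'
      simp only [mem_filter, mem_Ioc, mem_Ico] at hx hx'
      omega
    rw [h1, filter_union, card_union_of_disjoint h2, ih,
      Nat.filter_Ico_card_eq_of_periodic _ _ _ hp]
    ring

/-- the number of `x ≤ y` with an odd exponent of two -/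
def NO (y : ℕ) : ℕ := ((Icc 1 y).filter (fun x => V x % 2 = 1)).card

lemma NO_rec (y : ℕ) : NO y + NO (y / 2) = y / 2 := by
  have h1 : (Icc 1 y).filter (fun x => V x % 2 = 1) =
      ((Icc 1 (y / 2)).filter (fun x => ¬ V x % 2 = 1)).image (fun x => 2 * x) := by
    ext x
    simp only [mem_filter, mem_Icc, mem_image]
    constructor
    · rintro ⟨⟨h1, h2⟩, h3⟩
      rcases Nat.even_or_odd' x with ⟨w, h | h⟩
      · subst h
        rw [V_two (by omega)] at h3
        exact ⟨w, ⟨by omega, by omega⟩, rfl⟩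
      · rw [V_zero (by omega)] at h3
        omega
    · rintro ⟨w, ⟨h1, h2⟩, rfl⟩
      rw [V_two (by omega)]
      exact ⟨by omega, by omega⟩
  have h2 : NO y = ((Icc 1 (y / 2)).filter (fun x => ¬ V x % 2 = 1)).card := by
    unfold NO
    rw [h1, card_image_of_injective _ (fun a b h => by simpa using h)]
  have h3 := card_filter_add_card_filter_not (s := Icc 1 (y / 2)) (fun x => V x % 2 = 1)
  rw [Nat.card_Icc] at h3
  rw [h2]
  unfold NO
  omega

lemma NO_bd (y : ℕ) : y ≤ 3 * NO y + (Nat.log 2 y + 1) ∧ 3 * NO y ≤ y + (Nat.log 2 y + 1) := by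
  induction y using Nat.strong_induction_on with
  | _ y ih =>
    have hr := NO_rec y
    rcases Nat.lt_or_ge y 2 with h | h
    · have h0 : NO (y / 2) = 0 := by
        have : y / 2 = 0 := by omega
        rw [this]
        simp [NO]
      omega
    · obtain ⟨i1, i2⟩ := ih (y / 2) (by omega)
      have hl := Nat.log_div_base 2 y
      have hl2 : 1 ≤ Nat.log 2 y := Nat.log_pos (by norm_num) h
      omega

lemma NO_mono_diff {a b : ℕ} (h : a ≤ b) :
    ((Ioc a b).filter (fun x => V x % 2 = 1)).card = NO b - NO a := by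
  have h1 : (Icc 1 b).filter (fun x => V x % 2 = 1) =
      (Icc 1 a).filter (fun x => V x % 2 = 1) ∪ (Ioc a b).filter (fun x => V x % 2 = 1) := by
    ext x
    simp only [mem_filter, mem_union, mem_Icc, mem_Ioc]
    constructor
    · rintro ⟨⟨h1, h2⟩, h3⟩
      by_cases h4 : x ≤ a
      · exact Or.inl ⟨⟨h1, h4⟩, h3⟩
      · exact Or.inr ⟨⟨by omega, h2⟩, h3⟩
    · rintro (⟨⟨h1, h2⟩, h3⟩ | ⟨⟨h1, h2⟩, h3⟩)
      · exact ⟨⟨h1, by omega⟩, h3⟩
      · exact ⟨⟨by omega, h2⟩, h3⟩
  have h2 : Disjoint ((Icc 1 a).filter (fun x => V x % 2 = 1))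
      ((Ioc a b).filter (fun x => V x % 2 = 1)) := by
    rw [Finset.disjoint_left]
    intro x hx hx'
    simp only [mem_filter, mem_Ioc, mem_Icc] at hx hx'
    omega
  have h3 : NO b = NO a + ((Ioc a b).filter (fun x => V x % 2 = 1)).card := by
    unfold NO
    rw [h1, card_union_of_disjoint h2]
  omega

open Classical in
/-- the set -/
noncomputable def S (m : ℕ) : Finset ℕ := (Icc 1 (720 * m)).filter (fun x => PA m x (V x))

lemma mem_S {m x : ℕ} : x ∈ S m ↔ (1 ≤ x ∧ x ≤ 720 * m) ∧ PA m x (V x) := by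
  simp only [S, mem_filter, mem_Icc]

/-- the basic set -/
def A0 (t : ℕ) : Finset ℕ :=
  (Ioc (720 * t) (720 * t + 2 * (1800 * t))).filter (fun x => x % 2 = 1) ∪
    ((Ioc (1440 * t) (4320 * t)).filter (fun x => V x % 2 = 1) ∪
      ((Ioc (360 * t) (1440 * t)).filter (fun x => V x % 2 = 1)).image (fun x => 2 * x))

def S1 (t : ℕ) : Finset ℕ := (Ioc (720 * t) (720 * t + 90 * t)).filter
  (fun x => x % 2 = 1 ∧ x % 3 = 0 ∧ x % 9 ≠ 0 ∧ x % 5 ≠ 0)
def S2 (t : ℕ) : Finset ℕ := (Ioc (960 * t) (960 * t + 120 * t)).filter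
  (fun x => x % 8 = 4 ∧ x % 3 ≠ 0 ∧ x % 5 ≠ 0)
def S3 (t : ℕ) : Finset ℕ := (Ioc (4050 * t) (4050 * t + 30 * (9 * t))).filter
  (fun x => x % 2 = 1 ∧ x % 15 = 0)
def S4 (t : ℕ) : Finset ℕ := (Ioc (3600 * t) (3600 * t + 450 * t)).filter
  (fun x => x % 2 = 1 ∧ x % 15 = 0 ∧ (x % 9 = 0 ∨ x % 25 = 0))
def U1 (t : ℕ) : Finset ℕ := (Ioc (2880 * t) (2880 * t + 360 * t)).filter
  (fun x => x % 8 = 4 ∧ x % 3 = 0 ∧ x % 9 ≠ 0 ∧ x % 5 ≠ 0)
def U2 (t : ℕ) : Finset ℕ := (Ioc (3840 * t) (3840 * t + 480 * t)).filter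
  (fun x => x % 32 = 16 ∧ x % 3 ≠ 0 ∧ x % 5 ≠ 0)

lemma card_S1 (t : ℕ) : (S1 t).card = t * 8 := by
  unfold S1
  rw [cntP _ 90 (fun x => by simp only [eq_iff_iff]; omega)]
  refine congrArg (fun c => t * c) ?_
  decide +kernel

lemma card_S2 (t : ℕ) : (S2 t).card = t * 8 := by
  unfold S2
  rw [cntP _ 120 (fun x => by simp only [eq_iff_iff]; omega)]
  refine congrArg (fun c => t * c) ?_
  decide +kernel

lemma card_S3 (t : ℕ) : (S3 t).card = 9 * t * 1 := by
  unfold S3
  rw [cntP _ 30 (fun x => by simp only [eq_iff_iff]; omega)]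
  refine congrArg (fun c => 9 * t * c) ?_
  decide +kernel

lemma card_S4 (t : ℕ) : (S4 t).card = t * 7 := by
  unfold S4
  rw [cntP _ 450 (fun x => by simp only [eq_iff_iff]; omega)]
  refine congrArg (fun c => t * c) ?_
  decide +kernel

lemma card_U1 (t : ℕ) : (U1 t).card = t * 8 := by
  unfold U1
  rw [cntP _ 360 (fun x => by simp only [eq_iff_iff]; omega)]
  refine congrArg (fun c => t * c) ?_
  decide +kernel

lemma card_U2 (t : ℕ) : (U2 t).card = t * 8 := by
  unfold U2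
  rw [cntP _ 480 (fun x => by simp only [eq_iff_iff]; omega)]
  refine congrArg (fun c => t * c) ?_
  decide +kernel

lemma card_odd (t : ℕ) :
    ((Ioc (720 * t) (720 * t + 2 * (1800 * t))).filter (fun x => x % 2 = 1)).card = 1800 * t := by
  rw [cntP _ 2 (fun x => by simp only [eq_iff_iff]; omega)]
  have : Nat.count (fun x => x % 2 = 1) 2 = 1 := by decide +kernel
  rw [this, mul_one]

lemma NO_le {a b : ℕ} (h : a ≤ b) : NO a ≤ NO b := by
  unfold NO
  apply card_le_card
  apply filter_subset_filter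
  exact Icc_subset_Icc_right h

lemma card_A0 (t : ℕ) : (A0 t).card + NO (360 * t) = 1800 * t + NO (4320 * t) := by
  have d1 : Disjoint ((Ioc (1440 * t) (4320 * t)).filter (fun x => V x % 2 = 1))
      (((Ioc (360 * t) (1440 * t)).filter (fun x => V x % 2 = 1)).image (fun x => 2 * x)) := by
    rw [Finset.disjoint_left]
    intro x hx hx'
    simp only [mem_filter, mem_image, mem_Ioc] at hx hx'
    obtain ⟨w, ⟨hw, hv⟩, rfl⟩ := hx'
    rw [V_two (by omega)] at hx
    omega
  have d2 : Disjoint ((Ioc (720 * t) (720 * t + 2 * (1800 * t))).filter (fun x => x % 2 = 1))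
      ((Ioc (1440 * t) (4320 * t)).filter (fun x => V x % 2 = 1) ∪
        ((Ioc (360 * t) (1440 * t)).filter (fun x => V x % 2 = 1)).image (fun x => 2 * x)) := by
    rw [Finset.disjoint_left]
    intro x hx hx'
    simp only [mem_union, mem_filter, mem_image, mem_Ioc] at hx hx'
    rcases hx' with hx' | ⟨w, ⟨hw, hv⟩, rfl⟩
    · rw [V_zero hx.2] at hx'
      omega
    · omega
  have h1 := NO_mono_diff (a := 1440 * t) (b := 4320 * t) (by omega)
  have h2 := NO_mono_diff (a := 360 * t) (b := 1440 * t) (by omega)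
  have h3 := NO_le (a := 1440 * t) (b := 4320 * t) (by omega)
  have h4 := NO_le (a := 360 * t) (b := 1440 * t) (by omega)
  rw [A0, card_union_of_disjoint d2, card_union_of_disjoint d1, card_odd,
    card_image_of_injective _ (fun a b h => by simpa using h), h1, h2]
  omega

lemma union_sub (t : ℕ) :
    (A0 t \ (S1 t ∪ (S2 t ∪ (S3 t ∪ S4 t)))) ∪ (U1 t ∪ U2 t) ⊆ S (6 * t) := by
  intro x hx
  rw [mem_S]
  rw [mem_union] at hx
  rcases hx with hx | hx
  · rw [mem_sdiff, mem_union, mem_union, mem_union] at hx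
    obtain ⟨h0, hn⟩ := hx
    push Not at hn
    obtain ⟨n1, n2, n3, n4⟩ := hn
    have hb : 0 < x ∧ x ≤ 4320 * t ∧ P0 (6 * t) x (V x) := by
      unfold P0
      simp only [A0, mem_union, mem_filter, mem_image, mem_Ioc] at h0
      rcases h0 with h | h | ⟨w, h, rfl⟩
      · refine ⟨by omega, by omega, Or.inl ⟨V_zero h.2, by omega⟩⟩
      · refine ⟨by omega, by omega, Or.inr (Or.inl ⟨h.2, by omega⟩)⟩
      · rw [V_two (by omega)]
        refine ⟨by omega, by omega, Or.inr (Or.inr ⟨by omega, by omega, by omega, by omega⟩)⟩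
    refine ⟨by omega, by omega, Or.inl ⟨hb.2.2, ?_, ?_, ?_, ?_⟩⟩
    · rintro ⟨h1, h2, h3⟩
      apply n1
      rw [S1, mem_filter, mem_Ioc]
      exact ⟨⟨by omega, by omega⟩, h1⟩
    · rintro ⟨h1, h2, h3⟩
      apply n2
      rw [S2, mem_filter, mem_Ioc]
      exact ⟨⟨by omega, by omega⟩, h1⟩
    · rintro ⟨h1, h2, h3⟩
      apply n3
      rw [S3, mem_filter, mem_Ioc]
      exact ⟨⟨by omega, by omega⟩, h1⟩
    · rintro ⟨h1, h2, h3⟩
      apply n4
      rw [S4, mem_filter, mem_Ioc]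
      exact ⟨⟨by omega, by omega⟩, h1⟩
  · rw [mem_union] at hx
    rcases hx with h | h
    · rw [U1, mem_filter, mem_Ioc] at h
      obtain ⟨⟨h1, h2⟩, h3⟩ := h
      exact ⟨by omega, by omega, Or.inr (Or.inl ⟨h3, by omega, by omega⟩)⟩
    · rw [U2, mem_filter, mem_Ioc] at h
      obtain ⟨⟨h1, h2⟩, h3⟩ := h
      exact ⟨by omega, by omega, Or.inr (Or.inr ⟨h3, by omega, by omega⟩)⟩

lemma card_S (t : ℕ) : 1784 * t + NO (4320 * t) ≤ (S (6 * t)).card + NO (360 * t) := by
  have hA : ∀ x ∈ A0 t, 0 < x ∧ P0 (6 * t) x (V x) := by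
    intro x h0
    unfold P0
    simp only [A0, mem_union, mem_filter, mem_image, mem_Ioc] at h0
    rcases h0 with h | h | ⟨w, h, rfl⟩
    · exact ⟨by omega, Or.inl ⟨V_zero h.2, by omega⟩⟩
    · exact ⟨by omega, Or.inr (Or.inl ⟨h.2, by omega⟩)⟩
    · rw [V_two (by omega)]
      exact ⟨by omega, Or.inr (Or.inr ⟨by omega, by omega, by omega, by omega⟩)⟩
  have d1 : Disjoint (U1 t) (U2 t) := by
    rw [Finset.disjoint_left]
    intro x hx hx'
    simp only [U1, U2, mem_filter, mem_Ioc] at hx hx'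
    omega
  have d2 : Disjoint (A0 t \ (S1 t ∪ (S2 t ∪ (S3 t ∪ S4 t)))) (U1 t ∪ U2 t) := by
    rw [Finset.disjoint_left]
    intro x hx hx'
    rw [mem_sdiff] at hx
    obtain ⟨hx0, hP⟩ := hA x hx.1
    have hr := rel_V hx0
    unfold P0 at hP
    rw [mem_union] at hx'
    rcases hx' with h | h
    · rw [U1, mem_filter, mem_Ioc] at h
      have hv : V x = 2 := hr.2.2.1.2 h.2.1
      omega
    · rw [U2, mem_filter, mem_Ioc] at h
      have hv : V x = 4 := hr.2.2.2.2.2 h.2.1
      omega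
  have h1 := card_le_card (union_sub t)
  rw [card_union_of_disjoint d2, card_union_of_disjoint d1, card_U1, card_U2] at h1
  have h2 := Finset.le_card_sdiff (S1 t ∪ (S2 t ∪ (S3 t ∪ S4 t))) (A0 t)
  have h3 := (card_union_le (S1 t) (S2 t ∪ (S3 t ∪ S4 t)))
  have h4 := (card_union_le (S2 t) (S3 t ∪ S4 t))
  have h5 := (card_union_le (S3 t) (S4 t))
  rw [card_S1] at h3
  rw [card_S2] at h4
  rw [card_S3, card_S4] at h5
  have h6 := card_A0 t
  omega

end Pool.Agent.Y980.DV
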