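import Pool.Agent.Y980.DV.Low2

set_option autoImplicit false

/-!
# The size of the set of density `1553/2160`
-/

namespace Pool.Agent.Y980.DV.B

open Finset

open Classical in
/-- the set -/
noncomputable def S (m : ℕ) : Finset ℕ := (Icc 1 (720 * m)).filter (fun x => PA m x (V x))

lemma mem_S {m x : ℕ} : x ∈ S m ↔ (1 ≤ x ∧ x ≤ 720 * m) ∧ PA m x (V x) := by
  simp only [S, mem_filter, mem_Icc]

def S1 (t : ℕ) : Finset ℕ := (Ioc (720 * t) (720 * t + 18 * (5 * t))).filter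
  (fun x => x % 2 = 1 ∧ x % 3 = 0 ∧ x % 9 ≠ 0)
def S2 (t : ℕ) : Finset ℕ := (Ioc (960 * t) (960 * t + 24 * (5 * t))).filter
  (fun x => x % 8 = 4 ∧ x % 3 ≠ 0)
def S3 (t : ℕ) : Finset ℕ := (Ioc (4050 * t) (4050 * t + 30 * (9 * t))).filter
  (fun x => x % 2 = 1 ∧ x % 15 = 0)
def S4 (t : ℕ) : Finset ℕ := (Ioc (3600 * t) (3600 * t + 90 * (5 * t))).filter
  (fun x => x % 2 = 1 ∧ x % 15 = 0 ∧ x % 9 = 0)
def S5 (t : ℕ) : Finset ℕ := (Ioc (768 * t) (768 * t + 96 * t)).filter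
  (fun x => x % 32 = 16 ∧ x % 3 ≠ 0)
def U1 (t : ℕ) : Finset ℕ := (Ioc (2880 * t) (2880 * t + 72 * (5 * t))).filter
  (fun x => x % 8 = 4 ∧ x % 3 = 0 ∧ x % 9 ≠ 0)
def U2 (t : ℕ) : Finset ℕ := (Ioc (3840 * t) (3840 * t + 96 * (5 * t))).filter
  (fun x => x % 32 = 16 ∧ x % 3 ≠ 0)
def U3 (t : ℕ) : Finset ℕ := (Ioc (3072 * t) (3072 * t + 384 * t)).filter
  (fun x => x % 128 = 64 ∧ x % 3 ≠ 0)

lemma card_S1 (t : ℕ) : (S1 t).card = 5 * t * 2 := by
  unfold S1
  rw [cntP _ 18 (fun x => by simp only [eq_iff_iff]; omega)]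
  refine congrArg (fun c => 5 * t * c) ?_
  decide +kernel

lemma card_S2 (t : ℕ) : (S2 t).card = 5 * t * 2 := by
  unfold S2
  rw [cntP _ 24 (fun x => by simp only [eq_iff_iff]; omega)]
  refine congrArg (fun c => 5 * t * c) ?_
  decide +kernel

lemma card_S3 (t : ℕ) : (S3 t).card = 9 * t * 1 := by
  unfold S3
  rw [cntP _ 30 (fun x => by simp only [eq_iff_iff]; omega)]
  refine congrArg (fun c => 9 * t * c) ?_
  decide +kernel

lemma card_S4 (t : ℕ) : (S4 t).card = 5 * t * 1 := by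
  unfold S4
  rw [cntP _ 90 (fun x => by simp only [eq_iff_iff]; omega)]
  refine congrArg (fun c => 5 * t * c) ?_
  decide +kernel

lemma card_S5 (t : ℕ) : (S5 t).card = t * 2 := by
  unfold S5
  rw [cntP _ 96 (fun x => by simp only [eq_iff_iff]; omega)]
  refine congrArg (fun c => t * c) ?_
  decide +kernel

lemma card_U1 (t : ℕ) : (U1 t).card = 5 * t * 2 := by
  unfold U1
  rw [cntP _ 72 (fun x => by simp only [eq_iff_iff]; omega)]
  refine congrArg (fun c => 5 * t * c) ?_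
  decide +kernel

lemma card_U2 (t : ℕ) : (U2 t).card = 5 * t * 2 := by
  unfold U2
  rw [cntP _ 96 (fun x => by simp only [eq_iff_iff]; omega)]
  refine congrArg (fun c => 5 * t * c) ?_
  decide +kernel

lemma card_U3 (t : ℕ) : (U3 t).card = t * 2 := by
  unfold U3
  rw [cntP _ 384 (fun x => by simp only [eq_iff_iff]; omega)]
  refine congrArg (fun c => t * c) ?_
  decide +kernel

lemma union_sub (t : ℕ) :
    (A0 t \ (S1 t ∪ (S2 t ∪ (S3 t ∪ (S4 t ∪ S5 t))))) ∪ (U1 t ∪ (U2 t ∪ U3 t)) ⊆ S (6 * t) := by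
  intro x hx
  rw [mem_S]
  rw [mem_union] at hx
  rcases hx with hx | hx
  · rw [mem_sdiff, mem_union, mem_union, mem_union, mem_union] at hx
    obtain ⟨h0, hn⟩ := hx
    push Not at hn
    obtain ⟨n1, n2, n3, n4, n5⟩ := hn
    have hb : 0 < x ∧ x ≤ 4320 * t ∧ P0 (6 * t) x (V x) := by
      unfold P0
      simp only [A0, mem_union, mem_filter, mem_image, mem_Ioc] at h0
      rcases h0 with h | h | ⟨w, h, rfl⟩
      · refine ⟨by omega, by omega, Or.inl ⟨V_zero h.2, by omega⟩⟩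
      · refine ⟨by omega, by omega, Or.inr (Or.inl ⟨h.2, by omega⟩)⟩
      · rw [V_two (by omega)]
        refine ⟨by omega, by omega, Or.inr (Or.inr ⟨by omega, by omega, by omega, by omega⟩)⟩
    refine ⟨by omega, by omega, Or.inl ⟨hb.2.2, ?_, ?_, ?_, ?_, ?_⟩⟩
    · rintro ⟨h1, h2, h3⟩
      apply n1
      rw [S1, mem_filter, mem_Ioc]
      exact ⟨⟨by omega, by omega⟩, h1⟩
    · rintro ⟨h1, h2, h3⟩
      apply n2
      rw [S2, mem_filter, mem_Ioc]
      exact ⟨⟨by omega, by omega⟩, h1⟩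
    · rintro ⟨h1, h2, h3⟩
      apply n3
      rw [S3, mem_filter, mem_Ioc]
      exact ⟨⟨by omega, by omega⟩, h1⟩
    · rintro ⟨h1, h2, h3⟩
      apply n4
      rw [S4, mem_filter, mem_Ioc]
      exact ⟨⟨by omega, by omega⟩, h1⟩
    · rintro ⟨h1, h2, h3⟩
      apply n5
      rw [S5, mem_filter, mem_Ioc]
      exact ⟨⟨by omega, by omega⟩, h1⟩
  · rw [mem_union, mem_union] at hx
    rcases hx with h | h | h
    · rw [U1, mem_filter, mem_Ioc] at h
      obtain ⟨⟨h1, h2⟩, h3⟩ := h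
      exact ⟨by omega, by omega, Or.inr (Or.inl ⟨h3, by omega, by omega⟩)⟩
    · rw [U2, mem_filter, mem_Ioc] at h
      obtain ⟨⟨h1, h2⟩, h3⟩ := h
      exact ⟨by omega, by omega, Or.inr (Or.inr (Or.inl ⟨h3, by omega, by omega⟩))⟩
    · rw [U3, mem_filter, mem_Ioc] at h
      obtain ⟨⟨h1, h2⟩, h3⟩ := h
      exact ⟨by omega, by omega, Or.inr (Or.inr (Or.inr ⟨h3, by omega, by omega⟩))⟩

lemma V_six {x : ℕ} (h : x % 128 = 64) : V x = 6 := by
  obtain ⟨u, rfl⟩ : ∃ u, x = 2 * (2 * (16 * u)) := ⟨x / 64, by omega⟩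
  have hr := (rel_V (x := 16 * u) (by omega)).2.2.2.2.2 (by omega)
  rw [V_two (by omega), V_two (by omega), hr]

lemma card_S (t : ℕ) : 1786 * t + NO (4320 * t) ≤ (S (6 * t)).card + NO (360 * t) := by
  have hA : ∀ x ∈ A0 t, 0 < x ∧ P0 (6 * t) x (V x) := by
    intro x h0
    unfold P0
    simp only [A0, mem_union, mem_filter, mem_image, mem_Ioc] at h0
    rcases h0 with h | h | ⟨w, h, rfl⟩
    · exact ⟨by omega, Or.inl ⟨V_zero h.2, by omega⟩⟩
    · exact ⟨by omega, Or.inr (Or.inl ⟨h.2, by omega⟩)⟩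
    · rw [V_two (by omega)]
      exact ⟨by omega, Or.inr (Or.inr ⟨by omega, by omega, by omega, by omega⟩)⟩
  have d0 : Disjoint (U2 t) (U3 t) := by
    rw [Finset.disjoint_left]
    intro x hx hx'
    rw [U2, mem_filter, mem_Ioc] at hx
    rw [U3, mem_filter, mem_Ioc] at hx'
    omega
  have d1 : Disjoint (U1 t) (U2 t ∪ U3 t) := by
    rw [Finset.disjoint_left]
    intro x hx hx'
    rw [U1, mem_filter, mem_Ioc] at hx
    rw [mem_union] at hx'
    rcases hx' with hx' | hx'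
    · rw [U2, mem_filter, mem_Ioc] at hx'
      omega
    · rw [U3, mem_filter, mem_Ioc] at hx'
      omega
  have d2 : Disjoint (A0 t \ (S1 t ∪ (S2 t ∪ (S3 t ∪ (S4 t ∪ S5 t))))) (U1 t ∪ (U2 t ∪ U3 t)) := by
    rw [Finset.disjoint_left]
    intro x hx hx'
    rw [mem_sdiff] at hx
    obtain ⟨hx0, hP⟩ := hA x hx.1
    have hr := rel_V hx0
    unfold P0 at hP
    rw [mem_union, mem_union] at hx'
    rcases hx' with h | h | h
    · rw [U1, mem_filter, mem_Ioc] at h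
      have hv : V x = 2 := hr.2.2.1.2 h.2.1
      clear hr
      omega
    · rw [U2, mem_filter, mem_Ioc] at h
      have hv : V x = 4 := hr.2.2.2.2.2 h.2.1
      clear hr
      omega
    · rw [U3, mem_filter, mem_Ioc] at h
      have hv : V x = 6 := V_six h.2.1
      clear hr
      omega
  have h1 := card_le_card (union_sub t)
  rw [card_union_of_disjoint d2, card_union_of_disjoint d1, card_union_of_disjoint d0,
    card_U1, card_U2, card_U3] at h1
  have h2 := Finset.le_card_sdiff (S1 t ∪ (S2 t ∪ (S3 t ∪ (S4 t ∪ S5 t)))) (A0 t)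
  have h3 := (card_union_le (S1 t) (S2 t ∪ (S3 t ∪ (S4 t ∪ S5 t))))
  have h4 := (card_union_le (S2 t) (S3 t ∪ (S4 t ∪ S5 t)))
  have h5 := (card_union_le (S3 t) (S4 t ∪ S5 t))
  have h6 := (card_union_le (S4 t) (S5 t))
  rw [card_S1] at h3
  rw [card_S2] at h4
  rw [card_S3] at h5
  rw [card_S4, card_S5] at h6
  have h7 := card_A0 t
  omega

end Pool.Agent.Y980.DV.B
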