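import Mathlib

set_option autoImplicit false

/-!
# Admissible sets of density `97/135`

`PA m x v` describes membership of `x` in the set `S m ⊆ [1, 720 m]`, where `v` is the exponent of `2` in `x`.
-/

namespace Pool.Agent.Y980.DV

open Finset

/-- the exponent of two -/
def V (x : ℕ) : ℕ := padicValNat 2 x

/-- membership in the basic set -/
def P0 (m x v : ℕ) : Prop :=
  (v = 0 ∧ 120 * m < x) ∨ (v % 2 = 1 ∧ 240 * m < x) ∨ (0 < v ∧ v % 2 = 0 ∧ 120 * m < x ∧ x ≤ 480 * m)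

/-- removed elements `3 j` -/
def R1 (m x : ℕ) : Prop := (x % 2 = 1 ∧ x % 3 = 0 ∧ x % 9 ≠ 0 ∧ x % 5 ≠ 0) ∧ 120 * m < x ∧ x ≤ 135 * m

/-- removed elements `4 j` -/
def R2 (m x : ℕ) : Prop := (x % 8 = 4 ∧ x % 3 ≠ 0 ∧ x % 5 ≠ 0) ∧ 160 * m < x ∧ x ≤ 180 * m

/-- removed elements `15 j` -/
def R3 (m x : ℕ) : Prop := (x % 2 = 1 ∧ x % 15 = 0) ∧ 675 * m < x ∧ x ≤ 720 * m

/-- removed elements `15 j` -/
def R4 (m x : ℕ) : Prop :=
  (x % 2 = 1 ∧ x % 15 = 0 ∧ (x % 9 = 0 ∨ x % 25 = 0)) ∧ 600 * m < x ∧ x ≤ 675 * m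

/-- new elements `12 j` -/
def Q1 (m x : ℕ) : Prop :=
  (x % 8 = 4 ∧ x % 3 = 0 ∧ x % 9 ≠ 0 ∧ x % 5 ≠ 0) ∧ 480 * m < x ∧ x ≤ 540 * m

/-- new elements `16 j` -/
def Q2 (m x : ℕ) : Prop := (x % 32 = 16 ∧ x % 3 ≠ 0 ∧ x % 5 ≠ 0) ∧ 640 * m < x ∧ x ≤ 720 * m

/-- membership -/
def PA (m x v : ℕ) : Prop :=
  x ≤ 720 * m ∧ ((P0 m x v ∧ ¬ R1 m x ∧ ¬ R2 m x ∧ ¬ R3 m x ∧ ¬ R4 m x) ∨ Q1 m x ∨ Q2 m x)

/-- relation between `v` and residues -/
def Rel (x v : ℕ) : Prop :=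
  (v = 0 ↔ x % 2 = 1) ∧ (v = 1 ↔ x % 4 = 2) ∧ (v = 2 ↔ x % 8 = 4) ∧ (v = 3 ↔ x % 16 = 8) ∧
    (v = 4 ↔ x % 32 = 16)

lemma b1 {m x v : ℕ} (h : PA m x v) : 120 * m < x ∧ x ≤ 720 * m := by
  obtain ⟨h0, h | h | h⟩ := h
  · obtain ⟨h, -⟩ := h
    unfold P0 at h
    omega
  · obtain ⟨-, h1, h2⟩ := h
    omega
  · obtain ⟨-, h1, h2⟩ := h
    omega

lemma b2 {m x v : ℕ} (h : PA m x v) : v % 2 = 1 → 240 * m < x := by
  intro hv
  obtain ⟨h0, h | h | h⟩ := h
  · obtain ⟨h, -⟩ := h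
    unfold P0 at h
    omega
  · obtain ⟨-, h1, h2⟩ := h
    omega
  · obtain ⟨-, h1, h2⟩ := h
    omega

lemma b3 {m x v : ℕ} (h : PA m x v) : 0 < v → v % 2 = 0 → x ≤ 480 * m ∨ Q1 m x ∨ Q2 m x := by
  intro h1 h2
  obtain ⟨h0, ⟨h, -⟩ | h | h⟩ := h
  · left
    unfold P0 at h
    omega
  · right; left; exact h
  · right; right; exact h

lemma b4 {m x v : ℕ} (h : PA m x v) : ¬ R1 m x := by
  obtain ⟨h0, ⟨-, h, -⟩ | h | h⟩ := h
  · exact h
  · obtain ⟨⟨a, -⟩, -⟩ := h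
    rintro ⟨⟨b, -⟩, -⟩
    omega
  · obtain ⟨⟨a, -⟩, -⟩ := h
    rintro ⟨⟨b, -⟩, -⟩
    omega

lemma b5 {m x v : ℕ} (h : PA m x v) : ¬ R2 m x := by
  obtain ⟨h0, ⟨-, -, h, -⟩ | h | h⟩ := h
  · exact h
  · obtain ⟨-, a, -⟩ := h
    rintro ⟨-, -, b⟩
    omega
  · obtain ⟨-, a, -⟩ := h
    rintro ⟨-, -, b⟩
    omega

lemma b6 {m x v : ℕ} (h : PA m x v) : ¬ R3 m x ∧ ¬ R4 m x := by
  obtain ⟨h0, ⟨-, -, -, h⟩ | h | h⟩ := h
  · exact h
  · obtain ⟨⟨a, -⟩, -⟩ := h
    exact ⟨fun b => by have := b.1.1; omega, fun b => by have := b.1.1; omega⟩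
  · obtain ⟨⟨a, -⟩, -⟩ := h
    exact ⟨fun b => by have := b.1.1; omega, fun b => by have := b.1.1; omega⟩

lemma c24 {m z v : ℕ} (_r0 : (v = 0 ↔ z % 2 = 1) ∧ (v = 2 ↔ z % 8 = 4))
    (h0 : PA m z v) (h1 : PA m (2 * z) (v + 1)) (h2 : PA m (4 * z) (v + 2)) : False := by
  have a0 := b1 h0
  have a2 := b1 h2
  have d0 := b2 h0
  have d1 := b2 h1
  have e := b3 h2 (by omega)
  have f := b4 h0
  have k := b5 h0
  clear h0 h1 h2
  by_cases hv : v % 2 = 1
  · have := d0 hv; omega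
  · have h3 := d1 (by omega)
    rcases e (by omega) with e | ⟨⟨e1, e2, e3, e4⟩, e5, e6⟩ | ⟨⟨e1, e2, e3⟩, e4, e5⟩
    · omega
    · exact f ⟨⟨by omega, by omega, by omega, by omega⟩, by omega, by omega⟩
    · exact k ⟨⟨by omega, by omega, by omega⟩, by omega, by omega⟩

lemma c23 {m z v : ℕ} (h0 : PA m (3 * z) v) (h1 : PA m (2 * z) (v + 1))
    (h2 : PA m (6 * z) (v + 1)) : False := by
  have a2 := b1 h2
  have d0 := b2 h0
  have d1 := b2 h1
  have e := b3 h2 (by omega)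
  have k := b5 h1
  clear h0 h1 h2
  by_cases hv : v % 2 = 1
  · have h3 := d0 hv
    rcases e (by omega) with e | ⟨⟨e1, e2, e3, e4⟩, e5, e6⟩ | ⟨⟨e1, e2, e3⟩, e4, e5⟩
    · omega
    · exact k ⟨⟨by omega, by omega, by omega⟩, by omega, by omega⟩
    · omega
  · have h3 := d1 (by omega)
    omega

lemma c25 {m z v : ℕ} (h1 : PA m (2 * z) (v + 1)) (h2 : PA m (10 * z) (v + 1)) : False := by
  have a1 := b1 h1
  have a2 := b1 h2
  have d1 := b2 h1
  have e := b3 h2 (by omega)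
  clear h1 h2
  by_cases hv : v % 2 = 1
  · rcases e (by omega) with e | ⟨⟨e1, e2, e3, e4⟩, e5, e6⟩ | ⟨⟨e1, e2, e3⟩, e4, e5⟩
    · omega
    · omega
    · omega
  · have h3 := d1 (by omega)
    omega

lemma c34 {m z v : ℕ} (h0 : PA m (3 * z) v) (h2 : PA m (12 * z) (v + 2)) : False := by
  have a0 := b1 h0
  have a2 := b1 h2
  have d0 := b2 h0
  have e := b3 h2 (by omega)
  have f := b4 h0
  clear h0 h2
  by_cases hv : v % 2 = 1
  · have h3 := d0 hv
    omega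
  · rcases e (by omega) with e | ⟨⟨e1, e2, e3, e4⟩, e5, e6⟩ | ⟨⟨e1, e2, e3⟩, e4, e5⟩
    · omega
    · exact f ⟨⟨by omega, by omega, by omega, by omega⟩, by omega, by omega⟩
    · omega

lemma c35 {m z v : ℕ} (r0 : v = 0 ↔ (3 * z) % 2 = 1) (h0 : PA m (3 * z) v)
    (h2 : PA m (15 * z) v) : False := by
  have a0 := b1 h0
  have a2 := b1 h2
  have d0 := b2 h0
  have e := b3 h2
  have f := b4 h0
  obtain ⟨k, l⟩ := b6 h2
  clear h0 h2
  by_cases hv : v % 2 = 1
  · have h3 := d0 hv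
    omega
  · by_cases hv0 : v = 0
    · clear e d0
      have q1 : z % 2 = 1 := by have := r0.1 hv0; omega
      have q2 : 15 * z ≤ 675 * m := by
        by_contra hcon
        exact k ⟨⟨by omega, by omega⟩, by omega, a2.2⟩
      have q3 : ¬ (15 * z) % 9 = 0 := fun hh =>
        l ⟨⟨by omega, by omega, Or.inl hh⟩, by omega, q2⟩
      have q4 : ¬ (15 * z) % 25 = 0 := fun hh =>
        l ⟨⟨by omega, by omega, Or.inr hh⟩, by omega, q2⟩
      clear k l r0
      exact f ⟨⟨by omega, by omega, by omega, by omega⟩, by omega, by omega⟩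
    · rcases e (by omega) (by omega) with e | ⟨⟨e1, e2, e3, e4⟩, e5, e6⟩ | ⟨⟨e1, e2, e3⟩, e4, e5⟩
      · omega
      · omega
      · omega

lemma c45 {m z v : ℕ} (h1 : PA m (4 * z) (v + 2)) (h2 : PA m (20 * z) (v + 2)) : False := by
  have a1 := b1 h1
  have a2 := b1 h2
  have d1 := b2 h1
  have e := b3 h2 (by omega)
  clear h1 h2
  by_cases hv : v % 2 = 1
  · have h3 := d1 (by omega)
    omega
  · rcases e (by omega) with e | ⟨⟨e1, e2, e3, e4⟩, e5, e6⟩ | ⟨⟨e1, e2, e3⟩, e4, e5⟩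
    · omega
    · omega
    · omega

lemma V_two {y : ℕ} (h : 0 < y) : V (2 * y) = V y + 1 := by
  unfold V
  rw [padicValNat.mul (by norm_num) h.ne', padicValNat.self (by norm_num), add_comm]

lemma V_odd {c y : ℕ} (hc : c % 2 = 1) (h : 0 < y) : V (c * y) = V y := by
  unfold V
  rw [padicValNat.mul (by omega) h.ne', padicValNat.eq_zero_of_not_dvd (by omega), zero_add]

lemma V_zero {y : ℕ} (h : y % 2 = 1) : V y = 0 := by
  unfold V
  exact padicValNat.eq_zero_of_not_dvd (by omega)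

lemma rel_V {x : ℕ} (hx : 0 < x) : Rel x (V x) := by
  have key : ∀ {z : ℕ}, 0 < z → (z % 2 = 1 ∧ V z = 0) ∨ (∃ w, 0 < w ∧ z = 2 * w ∧ V z = V w + 1) := by
    intro z hz
    rcases Nat.even_or_odd' z with ⟨w, h | h⟩
    · right
      refine ⟨w, by omega, h, ?_⟩
      rw [h, V_two (by omega)]
    · left
      exact ⟨by omega, V_zero (by omega)⟩
  unfold Rel
  rcases key hx with ⟨h1, h2⟩ | ⟨w, hw, h1, h2⟩
  · omega
  rcases key hw with ⟨h3, h4⟩ | ⟨w2, hw2, h3, h4⟩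
  · omega
  rcases key hw2 with ⟨h5, h6⟩ | ⟨w3, hw3, h5, h6⟩
  · omega
  rcases key hw3 with ⟨h7, h8⟩ | ⟨w4, hw4, h7, h8⟩
  · omega
  rcases key hw4 with ⟨h9, h10⟩ | ⟨w5, hw5, h9, h10⟩
  · omega
  · omega

/-- no element of the set has two divisors in the set -/
theorem no_two {m a b c : ℕ} (hm : 0 < b) (hc0 : 0 < c) (ha : PA m a (V a)) (hb : PA m b (V b))
    (hc : PA m c (V c)) (hlt : c < b) (hba : b < a) (h1 : b ∣ a) (h2 : c ∣ a) : False := by
  obtain ⟨u, rfl⟩ := h1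
  obtain ⟨w, hw⟩ := h2
  have a1 := b1 ha
  have a2 := b1 hb
  have a3 := b1 hc
  have hu : u < 6 := by
    by_contra hcon
    push Not at hcon
    have : b * 6 ≤ b * u := Nat.mul_le_mul_left b hcon
    omega
  have hw6 : w < 6 := by
    by_contra hcon
    push Not at hcon
    have : c * 6 ≤ c * w := Nat.mul_le_mul_left c hcon
    omega
  have hz2 : ∀ z : ℕ, 0 < z → V (4 * z) = V z + 2 := by
    intro z hz
    have : 4 * z = 2 * (2 * z) := by ring
    rw [this, V_two (by omega), V_two hz]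
  have hu2 : 2 ≤ u := by
    by_contra hcon
    have : u = 0 ∨ u = 1 := by omega
    rcases this with rfl | rfl <;> omega
  have huw : u < w := by
    by_contra hcon
    push Not at hcon
    have e1 : c * w ≤ c * u := Nat.mul_le_mul_left c hcon
    have e2 : c * u < b * u := Nat.mul_lt_mul_of_pos_right hlt (by omega)
    omega
  interval_cases u
  · interval_cases w
    · -- (2,3)
      obtain ⟨z, rfl⟩ : ∃ z, b = 3 * z := ⟨b / 3, by omega⟩
      obtain rfl : c = 2 * z := by omega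
      have hz : 0 < z := by omega
      have e1 : 3 * z * 2 = 6 * z := by ring
      rw [e1] at ha
      have v6 : V (6 * z) = V z + 1 := by
        rw [show 6 * z = 2 * (3 * z) by ring, V_two (by omega), V_odd (by norm_num) hz]
      have v3 : V (3 * z) = V z := V_odd (by norm_num) hz
      have v2 := V_two hz
      rw [v6] at ha
      rw [v3] at hb
      rw [v2] at hc
      exact c23 hb hc ha
    · -- (2,4)
      obtain rfl : b = 2 * c := by omega
      have e1 : 2 * c * 2 = 4 * c := by ring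
      rw [e1] at ha
      have r0 := rel_V (x := c) (by omega)
      rw [hz2 c hc0] at ha
      rw [V_two hc0] at hb
      exact c24 ⟨r0.1, r0.2.2.1⟩ hc hb ha
    · -- (2,5)
      obtain ⟨z, rfl⟩ : ∃ z, b = 5 * z := ⟨b / 5, by omega⟩
      obtain rfl : c = 2 * z := by omega
      have hz : 0 < z := by omega
      have e1 : 5 * z * 2 = 10 * z := by ring
      rw [e1] at ha
      have v6 : V (10 * z) = V z + 1 := by
        rw [show 10 * z = 2 * (5 * z) by ring, V_two (by omega), V_odd (by norm_num) hz]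
      have v3 : V (5 * z) = V z := V_odd (by norm_num) hz
      have v2 := V_two hz
      rw [v6] at ha
      rw [v3] at hb
      rw [v2] at hc
      exact c25 hc ha
  · interval_cases w
    · -- (3,4)
      obtain ⟨z, rfl⟩ : ∃ z, b = 4 * z := ⟨b / 4, by omega⟩
      obtain rfl : c = 3 * z := by omega
      have hz : 0 < z := by omega
      have e1 : 4 * z * 3 = 12 * z := by ring
      rw [e1] at ha
      have v6 : V (12 * z) = V z + 2 := by
        rw [show 12 * z = 4 * (3 * z) by ring, hz2 _ (by omega), V_odd (by norm_num) hz]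
      have v3 : V (3 * z) = V z := V_odd (by norm_num) hz
      rw [v6] at ha
      rw [v3] at hc
      exact c34 hc ha
    · -- (3,5)
      obtain ⟨z, rfl⟩ : ∃ z, b = 5 * z := ⟨b / 5, by omega⟩
      obtain rfl : c = 3 * z := by omega
      have hz : 0 < z := by omega
      have e1 : 5 * z * 3 = 15 * z := by ring
      rw [e1] at ha
      have v6 : V (15 * z) = V z := V_odd (by norm_num) hz
      have v3 : V (3 * z) = V z := V_odd (by norm_num) hz
      have r0 := rel_V (x := 3 * z) (by omega)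
      rw [v6] at ha
      rw [v3] at hc r0
      exact c35 r0.1 hc ha
  · interval_cases w
    -- (4,5)
    obtain ⟨z, rfl⟩ : ∃ z, b = 5 * z := ⟨b / 5, by omega⟩
    obtain rfl : c = 4 * z := by omega
    have hz : 0 < z := by omega
    have e1 : 5 * z * 4 = 20 * z := by ring
    rw [e1] at ha
    have v6 : V (20 * z) = V z + 2 := by
      rw [show 20 * z = 4 * (5 * z) by ring, hz2 _ (by omega), V_odd (by norm_num) hz]
    rw [v6] at ha
    rw [hz2 z hz] at hc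
    exact c45 hc ha
  · omega

end Pool.Agent.Y980.DV
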