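import Pool.Agent.Y980.DV.Up
import Pool.Agent.Y980.DV.Cnt

set_option autoImplicit false

/-!
# The upper bound `649/900`
-/

namespace Pool.Agent.Y980.DV

open Finset
open Pool.Agent.Results.MP_773b84_nt.BeyondTwoThirds (Admissible g g_le C card_C_le)

variable {n : ℕ} {A : Finset ℕ}

/-- a class in which one slot is always missing -/
lemma missing (hA : A ⊆ Icc 1 n) (hadm : Admissible A) {j : ℕ} (h15 : 15 * j ≤ n) (h16 : n < 16 * j)
    (m0 : ∃ x ∈ A, w x = 15 * j)
    (m1 : ∃ x ∈ A, Big A x ∧ lo A x / 2 = 1 ∧ c3 (w x) = j)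
    (m2 : ∃ x ∈ A, Big A x ∧ lo A x / 2 = 0 ∧ c3 (w x) = 5 * j)
    (m3 : ∃ x ∈ A, Big A x ∧ lo A x / 2 = 0 ∧ c3 (w x) = j) : False := by
  have hj : 0 < j := by omega
  have hle : ∀ a ∈ A, a ≤ n := fun a ha => (mem_Icc.mp (hA ha)).2
  -- `15 j`
  have e15 : 15 * j ∈ A := by
    obtain ⟨x, hx, hw⟩ := m0
    have h1 := w_mul x
    have h2 := hle x hx
    rw [hw] at h1
    have h3 : 2 ^ padicValNat 2 x < 2 := by
      by_contra hcon
      push Not at hcon
      have : 2 * (15 * j) ≤ 2 ^ padicValNat 2 x * (15 * j) := Nat.mul_le_mul_right _ hcon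
      omega
    have h4 : 0 < 2 ^ padicValNat 2 x := by positivity
    have h5 : 2 ^ padicValNat 2 x = 1 := by omega
    rw [h5, one_mul] at h1
    rwa [h1]
  -- general facts
  have gen : ∀ x ∈ A, Big A x → 2 ^ (lo A x + 1) * w x ≤ n ∧ ∃ y ∈ A, y = 2 ^ lo A x * w x := by
    intro x hx hb
    obtain ⟨y, hy, hyx, hwy, hly⟩ := lo_spec hb
    have h1 := v_lt hwy hyx
    refine ⟨?_, y, hy, ?_⟩
    · calc 2 ^ (lo A x + 1) * w x ≤ 2 ^ padicValNat 2 x * w x :=
            Nat.mul_le_mul_right _ (Nat.pow_le_pow_right (by norm_num) (by omega))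
        _ = x := w_mul x
        _ ≤ n := hle x hx
    · rw [← hly, ← hwy]
      exact (w_mul y).symm
  obtain ⟨x1, hx1, hb1, hl1, hc1⟩ := m1
  obtain ⟨x2, hx2, hb2, hl2, hc2⟩ := m2
  obtain ⟨x3, hx3, hb3, hl3, hc3⟩ := m3
  obtain ⟨g1, y1, hy1, e1⟩ := gen x1 hx1 hb1
  obtain ⟨g2, y2, hy2, e2⟩ := gen x2 hx2 hb2
  obtain ⟨g3, y3, hy3, e3⟩ := gen x3 hx3 hb3
  have k1 := c3_mul (w x1)
  have k2 := c3_mul (w x2)
  have k3 := c3_mul (w x3)
  rw [hc1] at k1
  rw [hc2] at k2
  rw [hc3] at k3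
  -- level one
  have w1 : w x1 = j ∧ lo A x1 = 2 := by
    have h1 : 2 ^ 3 * w x1 ≤ n := le_trans (Nat.mul_le_mul_right _
      (Nat.pow_le_pow_right (by norm_num) (by omega))) g1
    have h2 : w x1 = j := by
      rcases Nat.eq_zero_or_pos (padicValNat 3 (w x1)) with h0 | h0
      · rw [h0] at k1; omega
      · have : 3 ^ 1 * j ≤ 3 ^ padicValNat 3 (w x1) * j :=
          Nat.mul_le_mul_right _ (Nat.pow_le_pow_right (by norm_num) h0)
        omega
    refine ⟨h2, ?_⟩
    rw [h2] at g1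
    by_contra hcon
    have h3 : 2 ^ 4 * j ≤ 2 ^ (lo A x1 + 1) * j :=
      Nat.mul_le_mul_right _ (Nat.pow_le_pow_right (by norm_num) (by omega))
    omega
  -- `5 j`
  have e5 : 5 * j ∈ A := by
    have h1 : 2 ^ 1 * w x2 ≤ n := le_trans (Nat.mul_le_mul_right _
      (Nat.pow_le_pow_right (by norm_num) (by omega))) g2
    have h2 : w x2 = 5 * j := by
      rcases Nat.eq_zero_or_pos (padicValNat 3 (w x2)) with h0 | h0
      · rw [h0] at k2; omega
      · have : 3 ^ 1 * (5 * j) ≤ 3 ^ padicValNat 3 (w x2) * (5 * j) :=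
          Nat.mul_le_mul_right _ (Nat.pow_le_pow_right (by norm_num) h0)
        omega
    rw [h2] at g2 e2
    have h3 : lo A x2 = 0 := by
      by_contra hcon
      have h3 : 2 ^ 2 * (5 * j) ≤ 2 ^ (lo A x2 + 1) * (5 * j) :=
        Nat.mul_le_mul_right _ (Nat.pow_le_pow_right (by norm_num) (by omega))
      omega
    rw [h3, pow_zero, one_mul] at e2
    rwa [← e2]
  -- `3 j`
  have e3j : 3 * j ∈ A := by
    have h1 : 2 ^ 1 * w x3 ≤ n := le_trans (Nat.mul_le_mul_right _
      (Nat.pow_le_pow_right (by norm_num) (by omega))) g3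
    have h2 : w x3 = 3 * j := by
      rcases Nat.eq_zero_or_pos (padicValNat 3 (w x3)) with h0 | h0
      · exfalso
        rw [h0] at k3
        have h4 : w x3 = w x1 := by omega
        have h5 := big_unique hadm hx3 hx1 hb3 hb1 h4
        rw [h5] at hl3
        omega
      · rcases Nat.lt_or_ge (padicValNat 3 (w x3)) 2 with h4 | h4
        · have h5 : padicValNat 3 (w x3) = 1 := by omega
          rw [h5] at k3
          omega
        · have : 3 ^ 2 * j ≤ 3 ^ padicValNat 3 (w x3) * j :=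
            Nat.mul_le_mul_right _ (Nat.pow_le_pow_right (by norm_num) h4)
          omega
    have h3 := lo_gap hadm hx1 hx3 hb1 hb3 (by rw [w1.1, h2]; exact Nat.dvd_mul_left _ _)
      (by rw [w1.1, h2]; omega)
    have h4 : lo A x3 = 0 := by omega
    rw [h4, pow_zero, one_mul, h2] at e3
    rwa [← e3]
  exact hadm ⟨15 * j, e15, 5 * j, e5, 3 * j, e3j, by omega, by omega, by omega,
    ⟨3, by ring⟩, ⟨5, by ring⟩⟩

/-- a second class in which one slot is always missing -/
lemma missing2 (hA : A ⊆ Icc 1 n) (hadm : Admissible A) {i : ℕ} (h45 : 45 * i ≤ n) (h54 : n < 54 * i)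
    (m0 : ∃ x ∈ A, w x = 45 * i)
    (a2 : ∃ x ∈ A, Big A x ∧ lo A x / 2 = 2 ∧ c3 (w x) = i)
    (a1 : ∃ x ∈ A, Big A x ∧ lo A x / 2 = 1 ∧ c3 (w x) = i)
    (a0 : ∃ x ∈ A, Big A x ∧ lo A x / 2 = 0 ∧ c3 (w x) = i)
    (b1 : ∃ x ∈ A, Big A x ∧ lo A x / 2 = 1 ∧ c3 (w x) = 5 * i)
    (b0 : ∃ x ∈ A, Big A x ∧ lo A x / 2 = 0 ∧ c3 (w x) = 5 * i) : False := by
  have hi : 0 < i := by omega
  have hle : ∀ a ∈ A, a ≤ n := fun a ha => (mem_Icc.mp (hA ha)).2
  have e45 : 45 * i ∈ A := by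
    obtain ⟨x, hx, hw⟩ := m0
    have h1 := w_mul x
    have h2 := hle x hx
    rw [hw] at h1
    have h3 : 2 ^ padicValNat 2 x < 2 := by
      by_contra hcon
      push Not at hcon
      have : 2 * (45 * i) ≤ 2 ^ padicValNat 2 x * (45 * i) := Nat.mul_le_mul_right _ hcon
      omega
    have h4 : 0 < 2 ^ padicValNat 2 x := by positivity
    have h5 : 2 ^ padicValNat 2 x = 1 := by omega
    rw [h5, one_mul] at h1
    rwa [h1]
  have gen : ∀ x ∈ A, Big A x → 2 ^ (lo A x + 1) * w x ≤ n ∧ ∃ y ∈ A, y = 2 ^ lo A x * w x := by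
    intro x hx hb
    obtain ⟨y, hy, hyx, hwy, hly⟩ := lo_spec hb
    have h1 := v_lt hwy hyx
    refine ⟨?_, y, hy, ?_⟩
    · calc 2 ^ (lo A x + 1) * w x ≤ 2 ^ padicValNat 2 x * w x :=
            Nat.mul_le_mul_right _ (Nat.pow_le_pow_right (by norm_num) (by omega))
        _ = x := w_mul x
        _ ≤ n := hle x hx
    · rw [← hly, ← hwy]
      exact (w_mul y).symm
  -- size bounds
  have pb : ∀ x ∈ A, Big A x → ∀ E l0 : ℕ, E ≤ padicValNat 3 (w x) → l0 ≤ lo A x →
      2 ^ (l0 + 1) * (3 ^ E * c3 (w x)) ≤ n := by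
    intro x hx hb E l0 h1 h2
    refine le_trans ?_ (gen x hx hb).1
    refine Nat.mul_le_mul (Nat.pow_le_pow_right (by norm_num) (by omega)) ?_
    calc 3 ^ E * c3 (w x) ≤ 3 ^ padicValNat 3 (w x) * c3 (w x) :=
          Nat.mul_le_mul_right _ (Nat.pow_le_pow_right (by norm_num) h1)
      _ = w x := c3_mul (w x)
  obtain ⟨x2, hx2, hb2, hl2, hc2⟩ := a2
  obtain ⟨x1, hx1, hb1, hl1, hc1⟩ := a1
  obtain ⟨x0, hx0, hb0, hl0, hc0⟩ := a0
  obtain ⟨z1, hz1, hbz1, hlz1, hcz1⟩ := b1
  obtain ⟨z0, hz0, hbz0, hlz0, hcz0⟩ := b0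
  have k2 := c3_mul (w x2)
  have k1 := c3_mul (w x1)
  have k0 := c3_mul (w x0)
  have q1 := c3_mul (w z1)
  have q0 := c3_mul (w z0)
  have p2 := pb x2 hx2 hb2
  have p1 := pb x1 hx1 hb1
  have p0 := pb x0 hx0 hb0
  have r1 := pb z1 hz1 hbz1
  have r0 := pb z0 hz0 hbz0
  rw [hc2] at k2 p2
  rw [hc1] at k1 p1
  rw [hc0] at k0 p0
  rw [hcz1] at q1 r1
  rw [hcz0] at q0 r0
  -- level two
  have w2 : w x2 = i := by
    rcases Nat.eq_zero_or_pos (padicValNat 3 (w x2)) with h | h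
    · rw [h, pow_zero, one_mul] at k2
      exact k2.symm
    · have := p2 1 4 h (by omega)
      norm_num at this
      omega
  have l2 : lo A x2 = 4 := by
    by_contra hcon
    have := p2 0 5 (by omega) (by omega)
    norm_num at this
    omega
  -- level one
  have w1 : w x1 = 3 * i := by
    rcases Nat.lt_or_ge (padicValNat 3 (w x1)) 2 with h | h
    · rcases Nat.eq_zero_or_pos (padicValNat 3 (w x1)) with h' | h'
      · rw [h', pow_zero, one_mul] at k1
        have := big_unique hadm hx1 hx2 hb1 hb2 (by rw [w2]; exact k1.symm)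
        rw [this] at hl1
        omega
      · have h'' : padicValNat 3 (w x1) = 1 := by omega
        rw [h'', pow_one] at k1
        exact k1.symm
    · have := p1 2 2 h (by omega)
      norm_num at this
      omega
  have l1 : lo A x1 = 2 := by
    have := lo_gap hadm hx2 hx1 hb2 hb1 (by rw [w1, w2]; exact Nat.dvd_mul_left _ _)
      (by rw [w1, w2]; omega)
    omega
  -- level zero
  have w0 : w x0 = 9 * i := by
    rcases Nat.lt_or_ge (padicValNat 3 (w x0)) 3 with h | h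
    · obtain h' | h' | h' : padicValNat 3 (w x0) = 0 ∨ padicValNat 3 (w x0) = 1 ∨
          padicValNat 3 (w x0) = 2 := by omega
      · rw [h', pow_zero, one_mul] at k0
        have := big_unique hadm hx0 hx2 hb0 hb2 (by rw [w2]; exact k0.symm)
        rw [this] at hl0
        omega
      · rw [h', pow_one] at k0
        have := big_unique hadm hx0 hx1 hb0 hb1 (by rw [w1]; exact k0.symm)
        rw [this] at hl0
        omega
      · rw [h'] at k0
        omega
    · have := p0 3 0 h (by omega)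
      norm_num at this
      omega
  have e9 : 9 * i ∈ A := by
    have h1 := lo_gap hadm hx1 hx0 hb1 hb0 (by rw [w1, w0]; exact ⟨3, by ring⟩)
      (by rw [w1, w0]; omega)
    have h2 : lo A x0 = 0 := by omega
    obtain ⟨-, y, hy, e⟩ := gen x0 hx0 hb0
    rw [h2, pow_zero, one_mul, w0] at e
    rwa [← e]
  have v1 : w z1 = 5 * i := by
    rcases Nat.eq_zero_or_pos (padicValNat 3 (w z1)) with h | h
    · rw [h, pow_zero, one_mul] at q1
      exact q1.symm
    · have := r1 1 2 h (by omega)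
      norm_num at this
      omega
  have v0 : w z0 = 15 * i := by
    rcases Nat.lt_or_ge (padicValNat 3 (w z0)) 2 with h | h
    · rcases Nat.eq_zero_or_pos (padicValNat 3 (w z0)) with h' | h'
      · rw [h', pow_zero, one_mul] at q0
        have := big_unique hadm hz0 hz1 hbz0 hbz1 (by rw [v1]; exact q0.symm)
        rw [this] at hlz0
        omega
      · have h'' : padicValNat 3 (w z0) = 1 := by omega
        rw [h'', pow_one] at q0
        omega
    · have := r0 2 0 h (by omega)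
      norm_num at this
      omega
  have e15 : 15 * i ∈ A := by
    obtain ⟨g, y, hy, e⟩ := gen z0 hz0 hbz0
    have h2 : lo A z0 = 0 := by
      by_contra hcon
      rw [v0] at g
      have h3 : 2 ^ 2 * (15 * i) ≤ 2 ^ (lo A z0 + 1) * (15 * i) :=
        Nat.mul_le_mul_right _ (Nat.pow_le_pow_right (by norm_num) (by omega))
      omega
    rw [h2, pow_zero, one_mul, v0] at e
    rwa [← e]
  exact hadm ⟨45 * i, e45, 15 * i, e15, 9 * i, e9, by omega, by omega, by omega,
    ⟨3, by ring⟩, ⟨5, by ring⟩⟩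

end Pool.Agent.Y980.DV
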