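import Pool.Agent.Results.MP_773b84_nt.BeyondTwoThirds

set_option autoImplicit false

/-!
# The upper bound `13/18`
-/

namespace Pool.Agent.Y980.DV

open Finset
open Pool.Agent.Results.MP_773b84_nt.BeyondTwoThirds (Admissible g g_le C card_C_le)

/-- odd part -/
def w (x : ℕ) : ℕ := x / 2 ^ padicValNat 2 x

/-- part prime to three -/
def c3 (x : ℕ) : ℕ := x / 3 ^ padicValNat 3 x

lemma w_mul (x : ℕ) : 2 ^ padicValNat 2 x * w x = x :=
  Nat.mul_div_cancel' pow_padicValNat_dvd

lemma c3_mul (x : ℕ) : 3 ^ padicValNat 3 x * c3 x = x :=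
  Nat.mul_div_cancel' pow_padicValNat_dvd

lemma w_odd {x : ℕ} (hx : 0 < x) : w x % 2 = 1 := by
  by_contra hcon
  have h2 : 2 ∣ w x := by omega
  obtain ⟨d, hd⟩ := h2
  have h3 : 2 ^ (padicValNat 2 x + 1) ∣ x := ⟨d, by
    have := w_mul x
    rw [hd] at this
    rw [pow_succ]
    linarith⟩
  exact pow_succ_padicValNat_not_dvd hx.ne' h3

lemma c3_ne {x : ℕ} (hx : 0 < x) : c3 x % 3 ≠ 0 := by
  intro hcon
  have h2 : 3 ∣ c3 x := by omega
  obtain ⟨d, hd⟩ := h2
  have h3 : 3 ^ (padicValNat 3 x + 1) ∣ x := ⟨d, by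
    have := c3_mul x
    rw [hd] at this
    rw [pow_succ]
    linarith⟩
  have : Fact (Nat.Prime 3) := ⟨by norm_num⟩
  exact pow_succ_padicValNat_not_dvd hx.ne' h3

lemma w_pos {x : ℕ} (hx : 0 < x) : 0 < w x := by have := w_odd hx; omega

lemma w_le (x : ℕ) : w x ≤ x := Nat.div_le_self _ _

lemma c3_dvd (x : ℕ) : c3 x ∣ x := ⟨3 ^ padicValNat 3 x, by rw [mul_comm]; exact (c3_mul x).symm⟩

lemma c3_odd {x : ℕ} (hx : x % 2 = 1) : c3 x % 2 = 1 := by
  obtain ⟨d, hd⟩ := c3_dvd x
  by_contra hcon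
  obtain ⟨e, he⟩ : 2 ∣ c3 x := by omega
  have : x = 2 * (e * d) := by rw [hd, he]; ring
  omega

/-- comparable if equal up to powers of three -/
lemma c3_comp {k l : ℕ} (h : c3 k = c3 l) : k ∣ l ∨ l ∣ k := by
  have h1 := c3_mul k
  have h2 := c3_mul l
  rcases le_total (padicValNat 3 k) (padicValNat 3 l) with h3 | h3
  · left
    rw [← h1, ← h2, h]
    exact Nat.mul_dvd_mul_right (pow_dvd_pow 3 h3) _
  · right
    rw [← h1, ← h2, h]
    exact Nat.mul_dvd_mul_right (pow_dvd_pow 3 h3) _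

variable {n : ℕ} {A : Finset ℕ}

/-- `x` is the larger element of its chain -/
def Big (A : Finset ℕ) (x : ℕ) : Prop := ∃ y ∈ A, y < x ∧ w y = w x

open Classical in
/-- the exponent of the smaller element -/
noncomputable def lo (A : Finset ℕ) (x : ℕ) : ℕ :=
  if h : Big A x then padicValNat 2 h.choose else 0

lemma lo_spec {x : ℕ} (h : Big A x) :
    ∃ y ∈ A, y < x ∧ w y = w x ∧ padicValNat 2 y = lo A x := by
  have h1 := h.choose_spec
  refine ⟨h.choose, h1.1, h1.2.1, h1.2.2, ?_⟩
  unfold lo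
  rw [dif_pos h]

lemma v_lt {x y : ℕ} (h : w y = w x) (hlt : y < x) : padicValNat 2 y < padicValNat 2 x := by
  by_contra hcon
  push Not at hcon
  have h1 := w_mul x
  have h2 := w_mul y
  have h3 : 2 ^ padicValNat 2 x * w x ≤ 2 ^ padicValNat 2 y * w y := by
    rw [h]
    exact Nat.mul_le_mul_right _ (Nat.pow_le_pow_right (by norm_num) hcon)
  omega

lemma dvd_of {x y : ℕ} (h : w y ∣ w x) (hle : padicValNat 2 y ≤ padicValNat 2 x) : y ∣ x := by
  rw [← w_mul x, ← w_mul y]
  exact Nat.mul_dvd_mul (pow_dvd_pow 2 hle) h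

/-- the exponents in comparable double chains -/
lemma lo_gap (hadm : Admissible A) {x x' : ℕ} (_hx : x ∈ A) (hx' : x' ∈ A)
    (hb : Big A x) (hb' : Big A x') (hd : w x ∣ w x') (hne : w x ≠ w x') :
    lo A x' + 2 ≤ lo A x := by
  obtain ⟨y, hy, hyx, hwy, hly⟩ := lo_spec hb
  obtain ⟨y', hy', hyx', hwy', hly'⟩ := lo_spec hb'
  have h1 := v_lt hwy' hyx'
  by_contra hcon
  push Not at hcon
  have h2 : padicValNat 2 y ≤ padicValNat 2 x' := by omega
  have h3 : y ∣ x' := dvd_of (by rw [hwy]; exact hd) h2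
  have h4 : y' ∣ x' := dvd_of (by rw [hwy']) h1.le
  refine hadm ⟨x', hx', y, hy, y', hy', ?_, by omega, ?_, h3, h4⟩
  · rintro rfl
    exact hne hwy.symm
  · rintro rfl
    exact hne (hwy.symm.trans hwy')

/-- at most two elements in a chain -/
lemma big_unique (hadm : Admissible A) {x x' : ℕ} (hx : x ∈ A) (hx' : x' ∈ A)
    (hb : Big A x) (hb' : Big A x') (h : w x = w x') : x = x' := by
  have key : ∀ x x' : ℕ, x ∈ A → x' ∈ A → Big A x → w x = w x' → x < x' → False := by
    intro x x' hx hx' hb h hlt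
    obtain ⟨y, hy, hyx, hwy⟩ := hb
    have h1 := v_lt h hlt
    have h2 := v_lt (hwy.trans h) (hyx.trans hlt)
    exact hadm ⟨x', hx', x, hx, y, hy, by omega, by omega, by omega,
      dvd_of (by rw [h]) h1.le, dvd_of (by rw [hwy, h]) h2.le⟩
  rcases lt_trichotomy x x' with h1 | h1 | h1
  · exact (key x x' hx hx' hb h h1).elim
  · exact h1
  · exact (key x' x hx' hx hb' h.symm h1).elim

lemma small_unique {x x' : ℕ} (hx : x ∈ A) (hx' : x' ∈ A)
    (hb : ¬ Big A x) (hb' : ¬ Big A x') (h : w x = w x') : x = x' := by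
  rcases lt_trichotomy x x' with h1 | h1 | h1
  · exact (hb' ⟨x, hx, h1, h⟩).elim
  · exact h1
  · exact (hb ⟨x', hx', h1, h.symm⟩).elim

lemma geo (L : ℕ) : ∀ n : ℕ, 3 * ∑ i ∈ range L, n / 2 ^ (2 * i + 1) ≤ 2 * n := by
  induction L with
  | zero => intro n; simp
  | succ L ih =>
    intro n
    rw [Finset.sum_range_succ']
    have h1 : ∑ i ∈ range L, n / 2 ^ (2 * (i + 1) + 1) = ∑ i ∈ range L, (n / 4) / 2 ^ (2 * i + 1) := by
      refine Finset.sum_congr rfl fun i _ => ?_
      rw [Nat.div_div_eq_div_mul]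
      congr 1
      ring
    rw [h1]
    have h2 := ih (n / 4)
    simp only [mul_zero, zero_add, pow_one]
    omega

theorem card_bound (hA : A ⊆ Icc 1 n) (hadm : Admissible A) :
    18 * A.card ≤ 13 * n + 12 * Nat.log 2 n + 21 := by
  classical
  have hpos : ∀ a ∈ A, 1 ≤ a ∧ a ≤ n := fun a ha => mem_Icc.mp (hA ha)
  have hsplit := card_filter_add_card_filter_not (s := A) (fun x => Big A x)
  -- the smaller elements
  have hs : 2 * (A.filter (fun x => ¬ Big A x)).card ≤ n + 1 := by
    have h1 : (A.filter (fun x => ¬ Big A x)).card ≤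
        ((Icc 1 n).filter (fun k => k % 2 = 1)).card := by
      refine card_le_card_of_injOn w ?_ ?_
      · intro x hx
        rw [mem_coe, mem_filter] at hx
        have hx0 := hpos x hx.1
        rw [mem_coe, mem_filter, mem_Icc]
        have := w_le x
        have h3 := w_pos (x := x) (by omega)
        exact ⟨⟨h3, by omega⟩, w_odd (by omega)⟩
      · intro x hx x' hx' h
        rw [mem_coe, mem_filter] at hx hx'
        exact small_unique hx.1 hx'.1 hx.2 hx'.2 h
    rw [Pool.Agent.Results.MP_773b84_nt.BeyondTwoThirds.card_odd] at h1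
    omega
  -- the larger elements
  have hb : 9 * (A.filter (fun x => Big A x)).card ≤ 2 * n + 6 * (Nat.log 2 n + 1) := by
    have hlow : ∀ x ∈ A, Big A x → 2 ^ (lo A x + 1) * w x ≤ x := by
      intro x _ hb
      obtain ⟨y, hy, hyx, hwy, hly⟩ := lo_spec hb
      have h1 := v_lt hwy hyx
      calc 2 ^ (lo A x + 1) * w x ≤ 2 ^ padicValNat 2 x * w x :=
            Nat.mul_le_mul_right _ (Nat.pow_le_pow_right (by norm_num) (by omega))
        _ = x := w_mul x
    have hmap : ∀ x ∈ A.filter (fun x => Big A x), lo A x / 2 ∈ range (Nat.log 2 n + 1) := by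
      intro x hx
      rw [mem_filter] at hx
      rw [mem_range]
      have h1 := hlow x hx.1 hx.2
      have h2 := hpos x hx.1
      have h3 := w_pos (x := x) (by omega)
      have h4 : 2 ^ (lo A x + 1) ≤ n := by nlinarith
      have h5 := Nat.le_log_of_pow_le (by norm_num) h4
      omega
    rw [Finset.card_eq_sum_card_fiberwise hmap]
    have hfib : ∀ i ∈ range (Nat.log 2 n + 1),
        ((A.filter (fun x => Big A x)).filter (fun x => lo A x / 2 = i)).card ≤
          (C (n / 2 ^ (2 * i + 1))).card := by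
      intro i _
      refine card_le_card_of_injOn (fun x => c3 (w x)) ?_ ?_
      · intro x hx
        rw [mem_coe, mem_filter, mem_filter] at hx
        obtain ⟨⟨hx, hbx⟩, hi⟩ := hx
        have h1 := hlow x hx hbx
        have h2 := hpos x hx
        have h3 := w_odd (x := x) (by omega)
        have h4 := c3_odd h3
        have h5 := c3_ne (x := w x) (by omega)
        have h6 := Nat.le_of_dvd (by omega) (c3_dvd (w x))
        have h7 : 1 ≤ c3 (w x) := by omega
        rw [mem_coe, C, mem_filter, mem_Icc]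
        refine ⟨⟨h7, ?_⟩, h4, h5⟩
        rw [Nat.le_div_iff_mul_le (by positivity)]
        calc c3 (w x) * 2 ^ (2 * i + 1) ≤ w x * 2 ^ (lo A x + 1) :=
              Nat.mul_le_mul h6 (Nat.pow_le_pow_right (by norm_num) (by omega))
          _ = 2 ^ (lo A x + 1) * w x := mul_comm _ _
          _ ≤ n := by omega
      · intro x hx x' hx' h
        rw [mem_coe, mem_filter, mem_filter] at hx hx'
        obtain ⟨⟨hx, hbx⟩, hi⟩ := hx
        obtain ⟨⟨hx', hbx'⟩, hi'⟩ := hx'
        by_cases hw : w x = w x'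
        · exact big_unique hadm hx hx' hbx hbx' hw
        · rcases c3_comp h with hd | hd
          · have := lo_gap hadm hx hx' hbx hbx' hd hw
            omega
          · have := lo_gap hadm hx' hx hbx' hbx hd (Ne.symm hw)
            omega
    have h1 := Finset.sum_le_sum hfib
    have h2 : 3 * ∑ i ∈ range (Nat.log 2 n + 1), (C (n / 2 ^ (2 * i + 1))).card ≤
        ∑ i ∈ range (Nat.log 2 n + 1), n / 2 ^ (2 * i + 1) + 2 * (Nat.log 2 n + 1) := by
      rw [Finset.mul_sum]
      refine (Finset.sum_le_sum fun i _ => card_C_le (n / 2 ^ (2 * i + 1))).trans ?_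
      rw [Finset.sum_add_distrib, Finset.sum_const, card_range]
      simp only [smul_eq_mul]
      omega
    have h3 := geo (Nat.log 2 n + 1) n
    omega
  omega

end Pool.Agent.Y980.DV
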